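import Mathlib
import Pool.Agent.MP_f748d5_al.Glue

set_option autoImplicit false

namespace Pool.Agent.Results.MP_f748d5_al.StrongAmalgam

universe u

/-- A group is virtually abelian if it has an abelian subgroup of finite index. -/
def IsVirtuallyAbelian (G : Type u) [Group G] : Prop :=
  ∃ A : Subgroup G, A.FiniteIndex ∧ IsMulCommutative A

/-- A group is virtually cyclic if it has a cyclic subgroup of finite index. -/
def IsVirtuallyCyclic (G : Type u) [Group G] : Prop :=
  ∃ C : Subgroup G, C.FiniteIndex ∧ IsCyclic C

/-- The restriction to the `i`-th factor of a homomorphism defined on the amalgamated product. -/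
def onFactor {H : Type u} [Group H] {G : Fin 2 → Type u} [∀ i, Group (G i)]
    {φ : ∀ i, H →* G i} {E : Type u} [Group E] (ν : Monoid.PushoutI φ →* E) (i : Fin 2) :
    G i →* E :=
  ν.comp (Monoid.PushoutI.of i)

/-- Let `G 0`, `G 1` be finitely generated virtually abelian groups and `H` a virtually cyclic
group with injective homomorphisms `φ i : H → G i`. Then the amalgamated free product
`Monoid.PushoutI φ` has a homomorphism `ν` to a finitely generated virtually abelian group `E`
that is injective on both factors and such that the intersection of the images of the two factors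
is the image of `H`, and is virtually cyclic. -/
theorem result {H : Type u} [Group H] {G : Fin 2 → Type u} [∀ i, Group (G i)]
    (φ : ∀ i, H →* G i) (hφ : ∀ i, Function.Injective (φ i))
    (hfg : ∀ i, Group.FG (G i)) (hva : ∀ i, IsVirtuallyAbelian (G i))
    (hvc : IsVirtuallyCyclic H) :
    ∃ (E : Type u) (_ : Group E), Group.FG E ∧ IsVirtuallyAbelian E ∧
      ∃ ν : Monoid.PushoutI φ →* E,
        Function.Injective (onFactor ν 0) ∧ Function.Injective (onFactor ν 1) ∧
        (onFactor ν 0).range ⊓ (onFactor ν 1).range = (ν.comp (Monoid.PushoutI.base φ)).range ∧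
        IsVirtuallyCyclic ↥((onFactor ν 0).range ⊓ (onFactor ν 1).range) := by
  obtain ⟨E, _, h1, h2, ν, h3, h4⟩ := Pool.Agent.MP_f748d5_al.main φ hφ hfg hva hvc
  have h5 : (onFactor ν 0).range ⊓ (onFactor ν 1).range
      = (ν.comp (Monoid.PushoutI.base φ)).range := h4 0 1 (by decide)
  refine ⟨E, inferInstance, h1, h2, ν, h3 0, h3 1, h5, ?_⟩
  rw [h5]
  obtain ⟨C, hC, hcyc⟩ := hvc
  let f := (ν.comp (Monoid.PushoutI.base φ)).rangeRestrict
  have hf : Function.Surjective f := MonoidHom.rangeRestrict_surjective _
  refine ⟨C.map f, ⟨?_⟩, ?_⟩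
  · exact ne_zero_of_dvd_ne_zero hC.index_ne_zero (Subgroup.index_map_dvd C hf)
  · exact isCyclic_of_surjective (f.subgroupMap C) (f.subgroupMap_surjective C)

end Pool.Agent.Results.MP_f748d5_al.StrongAmalgam
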